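import Pool.Agent.Lib.MP_d1968e_gt.Fig

/-!
# Not every knot is a hexagonal mosaic with triple-crossing interior

There is a knot (the figure-eight knot, given as a one-component suitably connected hexagonal
mosaic of size three) that is not represented by any suitably connected hexagonal mosaic, of
any size, all of whose interior tiles are triple-crossing tiles.
-/

namespace Pool.Agent.Results.MP_d1968e_gt.NotEveryKnot

open Pool.Agent.Lib.MP_d1968e_gt

theorem result :
    ∃ (n : ℕ) (K : Mosaic n), K.SuitablyConnected ∧ K.OneComponent ∧
      ∀ (r : ℕ) (M : Mosaic r), 2 ≤ r → M.SuitablyConnected → M.OneComponent → M.AllTriple →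
        ¬ K.SameKnot M := by
  refine ⟨3, fig, fig_suitablyConnected, fig_oneComponent, ?_⟩
  intro r M hr hS hO hT
  rcases Nat.lt_or_ge r 3 with h | h
  · obtain rfl : r = 2 := by omega
    rintro ⟨x, y, hx, hy, hxy⟩
    exact Mosaic.not_colorable_two hS hT hy
      ((colorable_requiv (ZMod 5) hxy).1 (fig_colorable_all hx))
  · exact absurd hO (Mosaic.not_oneComponent hS hT h)

end Pool.Agent.Results.MP_d1968e_gt.NotEveryKnot
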