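import Pool.Agent.Lib.MP_d1968e_gt.Exist
import Pool.Agent.Lib.MP_d1968e_gt.Count
import Pool.Agent.Lib.MP_d1968e_gt.Sharp2

/-!
# Hexagonal mosaics with triple-crossing interior: number of components, and all the knots

A suitably connected hexagonal `r`-mosaic all of whose interior tiles are triple-crossing tiles
has at least `⌈r / 2⌉` components, and for every `r ≥ 2` this bound is attained. Those with one
component have size two and represent the unknot or the trefoil; both occur, and they are not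
equivalent.
-/

namespace Pool.Agent.Results.MP_d1968e_gt.SaturatedMosaics

open Pool.Agent.Lib.MP_d1968e_gt

theorem result :
    (∀ (r : ℕ) (M : Mosaic r), 2 ≤ r → M.SuitablyConnected → M.AllTriple →
      ∃ f : Fin ((r + 1) / 2) → Pos × Fin 6, (∀ i, M.Used (f i)) ∧
        ∀ i j, i ≠ j → ¬ Relation.EqvGen M.Joined (f i) (f j)) ∧
    (∀ r : ℕ, 2 ≤ r → ∃ M : Mosaic r, M.SuitablyConnected ∧ M.AllTriple ∧
      ∃ f : Fin ((r + 1) / 2) → Pos × Fin 6, (∀ i, M.Used (f i)) ∧
        ∀ x, M.Used x → ∃ i, Relation.EqvGen M.Joined (f i) x) ∧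
    (∀ (r : ℕ) (M : Mosaic r), 2 ≤ r → M.SuitablyConnected → M.OneComponent → M.AllTriple →
      r = 2 ∧ ∀ x, M.Used x → (REquiv (M.word x) [] ∨
        ∃ a b c : Label, a ≠ b ∧ a ≠ c ∧ b ≠ c ∧
          REquiv (M.word x) [(a, true), (b, false), (c, true), (a, false), (b, true), (c, false)])) ∧
    (∃ M : Mosaic 2, M.SuitablyConnected ∧ M.OneComponent ∧ M.AllTriple ∧
      ∀ x, M.Used x → REquiv (M.word x) []) ∧
    (∃ M : Mosaic 2, M.SuitablyConnected ∧ M.OneComponent ∧ M.AllTriple ∧
      ∀ x, M.Used x → ∃ a b c : Label, a ≠ b ∧ a ≠ c ∧ b ≠ c ∧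
        REquiv (M.word x) [(a, true), (b, false), (c, true), (a, false), (b, true), (c, false)]) ∧
    (∀ a b c : Label, a ≠ b → a ≠ c → b ≠ c →
      ¬ REquiv [(a, true), (b, false), (c, true), (a, false), (b, true), (c, false)] []) :=
  ⟨fun _ _ hr hS hT => Mosaic.components hS hT hr,
    Mosaic.exists_sharp,
    fun _ _ hr hS hO hT => classification hr hS hO hT,
    exists_unknot_two, exists_trefoil_two,
    fun _ _ _ hab hac hbc => not_requiv_trefoilWord hab hac hbc⟩

end Pool.Agent.Results.MP_d1968e_gt.SaturatedMosaics
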